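import Pool.Agent.Helper65.BQ.St

/-!
# Project BQ (MP_ee405c_gt), module BOR: the Borel class of the set `XX`
-/

set_option autoImplicit false

open Set Topology TopologicalSpace

namespace Pool.Agent.Helper18.BQ

open Pool.Agent.Helper9.SID Pool.Agent.Helper65.BQ

/-- Projection along two codes. -/
theorem proj2_BOR {K : Type} [TopologicalSpace K] (g h : K → ℝ) (hg : Continuous g)
    (hh : Continuous h) (W : Set ((ℕ → Bool) × (ℕ → Bool))) (hW : IsOpen W) :
    IsClosed {x : K | ∃ c c', jj c = g x ∧ jj c' = h x ∧ (c, c') ∉ W} := by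
  have h1 : IsClosed ({p : ((ℕ → Bool) × (ℕ → Bool)) × K | jj p.1.1 = g p.2} ∩
      {p : ((ℕ → Bool) × (ℕ → Bool)) × K | jj p.1.2 = h p.2} ∩ Prod.fst ⁻¹' Wᶜ) := by
    refine IsClosed.inter (IsClosed.inter (isClosed_eq ?_ ?_) (isClosed_eq ?_ ?_))
      (hW.isClosed_compl.preimage continuous_fst)
    · exact jj_cont.comp (continuous_fst.comp continuous_fst)
    · exact hg.comp continuous_snd
    · exact jj_cont.comp (continuous_snd.comp continuous_fst)
    · exact hh.comp continuous_snd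
  have h2 := isClosedMap_snd_of_compactSpace _ h1
  convert h2 using 1
  ext x
  constructor
  · rintro ⟨c, c', h3, h4, h5⟩
    exact ⟨((c, c'), x), ⟨⟨h3, h4⟩, h5⟩, rfl⟩
  · rintro ⟨⟨⟨c, c'⟩, y⟩, ⟨⟨h3, h4⟩, h5⟩, rfl⟩
    exact ⟨c, c', h3, h4, h5⟩

/-- The set of the pairs (code, point) such that the point is in the coded open set. -/
theorem open_cU_BOR {K : Type} [TopologicalSpace K] (O : ℕ → Set K) (hO : Base O)
    (r : ℕ → ℕ) :
    IsOpen {p : (ℕ → Bool) × K | p.2 ∈ cU O (fun j => p.1 (r j))} := by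
  have e : {p : (ℕ → Bool) × K | p.2 ∈ cU O (fun j => p.1 (r j))} =
      ⋃ j, ({p : (ℕ → Bool) × K | p.1 (r j) = true} ∩ Prod.snd ⁻¹' (O j)) := by
    ext p
    simp [cU]
  rw [e]
  refine isOpen_iUnion fun j => IsOpen.inter ?_ ((hO.op j).preimage continuous_snd)
  have : Continuous fun p : (ℕ → Bool) × K => p.1 (r j) :=
    (continuous_apply (r j)).comp continuous_fst
  exact (isOpen_discrete {true}).preimage this

/-- The three kinds of sets. -/
def G_BOR {K : Type} [TopologicalSpace K] (f : ℕ → K → ℝ) (O : ℕ → Set K) (k : ℕ) : ℕ ⊕ ℕ ⊕ Unit → Set K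
  | Sum.inl n => {x | ∃ c, jj c = f k x ∧ x ∉ cU O (fun j => c (Nat.pair 0 (Nat.pair n j)))}
  | Sum.inr (Sum.inl j) => {x | ∃ c c', jj c = f k x ∧ jj c' = f j x ∧ Cert f O c' ∧ CT O c' ⊆ GP O c}
  | Sum.inr (Sum.inr _) => {x | ∃ c, jj c = f k x ∧ (c, x) ∉ (∅ : Set ((ℕ → Bool) × K))}ᶜ

/-- MODULE BOR. -/
theorem pBOR (hCO2 : StCO2) : StBOR := by
  intro K _ _ _ f hf O hO
  obtain ⟨hC, hI⟩ := hCO2 K f hf O hO
  have hC2 : IsGδ {q : (ℕ → Bool) × (ℕ → Bool) | Cert f O q.2 ∧ CT O q.2 ⊆ GP O q.1} :=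
    (hC.preimage continuous_snd).inter hI
  obtain ⟨W, hW, hWe⟩ := isGδ_iff_eq_iInter_nat.1 hC2
  have hmem : ∀ c c' : ℕ → Bool, (Cert f O c' ∧ CT O c' ⊆ GP O c) ↔ ∀ m, (c, c') ∈ W m := by
    intro c c'
    have h1 : (c, c') ∈ {q : (ℕ → Bool) × (ℕ → Bool) | Cert f O q.2 ∧ CT O q.2 ⊆ GP O q.1} ↔
        (c, c') ∈ ⋂ n, W n := by rw [hWe]
    rw [mem_iInter] at h1
    exact h1
  have hG : ∀ k a, IsGδ (G_BOR f O k a) := by
    intro k a
    rcases a with n | j | ⟨⟩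
    · have h1 := isClosed_proj (f k) (hf k)
        {p : (ℕ → Bool) × K | p.2 ∈ cU O (fun j => p.1 (Nat.pair 0 (Nat.pair n j)))}
        (open_cU_BOR O hO (fun j => Nat.pair 0 (Nat.pair n j)))
      exact h1.isGδ
    · have h0 := proj2_BOR (f k) (f j) (hf k) (hf j) ∅ isOpen_empty
      have h1 := fun m => proj2_BOR (f k) (f j) (hf k) (hf j) (W m) (hW m)
      have e : G_BOR f O k (Sum.inr (Sum.inl j)) =
          {x : K | ∃ c c', jj c = f k x ∧ jj c' = f j x ∧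
            (c, c') ∉ (∅ : Set ((ℕ → Bool) × (ℕ → Bool)))} ∩
          ⋂ m, {x : K | ∃ c c', jj c = f k x ∧ jj c' = f j x ∧ (c, c') ∉ W m}ᶜ := by
        ext x
        simp only [G_BOR, mem_ofPred_eq, mem_inter_iff, mem_iInter, mem_compl_iff,
          mem_empty_iff_false, not_false_eq_true, and_true]
        constructor
        · rintro ⟨c, c', h2, h3, h4⟩
          refine ⟨⟨c, c', h2, h3⟩, fun m => ?_⟩
          rintro ⟨d, d', h5, h6, h7⟩
          have e1 : d = c := jj_inj (h5.trans h2.symm)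
          have e2 : d' = c' := jj_inj (h6.trans h3.symm)
          subst e1 e2
          exact h7 ((hmem d d').1 h4 m)
        · rintro ⟨⟨c, c', h2, h3⟩, h4⟩
          refine ⟨c, c', h2, h3, (hmem c c').2 fun m => ?_⟩
          by_contra h5
          exact h4 m ⟨c, c', h2, h3, h5⟩
      rw [e]
      exact h0.isGδ.inter (IsGδ.iInter fun m => (h1 m).isOpen_compl.isGδ)
    · have h1 := isClosed_proj (f k) (hf k) ∅ isOpen_empty
      exact h1.isOpen_compl.isGδ
  obtain ⟨φ, hφ⟩ := exists_surjective_nat (ℕ ⊕ ℕ ⊕ Unit)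
  refine ⟨fun k n => G_BOR f O k (φ n), fun k n => hG k (φ n), ?_⟩
  have e2 : ∀ k, (⋃ n, G_BOR f O k (φ n)) = ⋃ a, G_BOR f O k a := fun k =>
    hφ.iUnion_comp (fun a => G_BOR f O k a)
  ext x
  rw [mem_iInter]
  constructor
  · intro hx k
    have hx' : ∀ c, jj c = f k x → x ∉ GP O c ∨
        ∃ j c', jj c' = f j x ∧ Cert f O c' ∧ CT O c' ⊆ GP O c := hx k
    change x ∈ ⋃ n, G_BOR f O k (φ n)
    rw [e2, mem_iUnion]
    by_cases h1 : ∃ c, jj c = f k x
    · obtain ⟨c, hc⟩ := h1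
      rcases hx' c hc with h2 | ⟨j, c', h2, h3, h4⟩
      · rw [GP, mem_iInter] at h2
        push Not at h2
        obtain ⟨n, hn⟩ := h2
        exact ⟨Sum.inl n, c, hc, hn⟩
      · exact ⟨Sum.inr (Sum.inl j), c, c', hc, h2, h3, h4⟩
    · refine ⟨Sum.inr (Sum.inr ()), ?_⟩
      rintro ⟨c, hc, -⟩
      exact h1 ⟨c, hc⟩
  · intro hx k c hc
    have h1 := hx k
    change x ∈ ⋃ n, G_BOR f O k (φ n) at h1
    rw [e2, mem_iUnion] at h1
    obtain ⟨a, ha⟩ := h1
    rcases a with n | j | ⟨⟩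
    · obtain ⟨d, hd, h2⟩ := ha
      have e1 : d = c := jj_inj (hd.trans hc.symm)
      subst e1
      left
      intro h3
      rw [GP, mem_iInter] at h3
      exact h2 (h3 n)
    · obtain ⟨d, c', hd, h2, h3, h4⟩ := ha
      have e1 : d = c := jj_inj (hd.trans hc.symm)
      subst e1
      exact Or.inr ⟨j, c', h2, h3, h4⟩
    · exact absurd ⟨c, hc, fun h => h⟩ ha

end Pool.Agent.Helper18.BQ
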